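import Pool.Agent.helper1.FI3.SpecH

set_option autoImplicit false

namespace Pool.Agent.FI3

open Pool.Agent.helper58.DC Pool.Agent.DI Pool.Agent.GR Pool.Agent.OB Pool.Agent.DR Pool.Agent.FI

/-- Row NZ3. -/
theorem NZ3 (hHTU : HTU_stmt) (hTRW : TRW_stmt) (hQNW : QNW_stmt) (hQID : QID_stmt) (hRR1 : RR1_stmt) : NZ3_stmt := by
  intro p M hS G _ _ D x θ χ hRt P hP u hu hgood ψ hψ
  obtain ⟨i, hi⟩ := hQID p M hS G D x θ χ hRt P hP
  obtain ⟨w, hwC, hwr, hHT⟩ := hHTU p M hS G D x θ χ hRt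
  obtain ⟨j, hj1, hj2, hj3, hj4, hj5⟩ := hi.loc (Cz (cz P) u) ⟨u, hu, rfl⟩
  have hCL : cz D ≤ cz P := Q1_C_le hP
  have hCK : cz D ≤ Cz (cz P) u := Q1_C_Cz hP hu
  have hDC : D ≤ cz D := le_cz_of_com hRt.com
  have hDL : D ≤ cz P := Q1_D_le hRt hP
  have hinvC : Inv (cz D) i := fun s hs y =>
    hi.inv s (Subgroup.mem_inf.2 ⟨cz_le_TT hs, hCL hs⟩) y
  have h1 : ev ψ i (u * w) ≠ 0 := hHT (cz P) hCL i hi.idm hinvC hi.cen ψ hψ u hu
  have hpel : PEl p u := by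
    obtain ⟨k, hk⟩ := hRt.dfa.pgrp ⟨u, hu⟩
    refine ⟨k, ?_⟩
    have := congrArg (Subtype.val) hk
    simpa using this
  have hcomm : Commute u w := by
    have h := hwC
    rw [Subgroup.mem_centralizer_iff] at h
    exact h u hu
  have hjL : Idm M (cz P) j :=
    ⟨fun y hy => hj1.sup y (fun h => hy (mem_Cz.1 h).1), hj1.int, hj1.idem⟩
  have huwC : u * w ∈ cz D := (cz D).mul_mem (hDC hu) hwC
  have h2 : ev ψ i (u * w) = ev ψ j (u * w) :=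
    hRR1 p M hS G (cz P) u (hDL hu) w (hCL hwC) hpel hwr hcomm i j hi.idm hjL
      (fun x => hinvC (u * w) huwC x) (fun x => hj2 (u * w) huwC x) hj5 ψ hψ.1
  have hne : (Bl M (Cz (cz P) u) θ).Nonempty := by
    rw [Set.nonempty_iff_ne_empty]
    intro h
    have h3 := hgood.card
    rw [h, Set.ncard_empty] at h3
    exact Nat.card_pos.ne h3
  obtain ⟨ψ0, hψ0⟩ := hne
  have h3 : ∀ ψ₁ ∈ Bl M (Cz (cz P) u) θ, ev ψ₁ j w = ev ψ0 j w := by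
    intro ψ₁ h
    exact hTRW p M hS G (Cz (cz P) u) j hj1 w (hCK hwC) hwr (fun x => hj2 w hwC x) ψ₁ ψ0
      (fun s hs x => IrrOn_conj h.1 hs x) (fun s hs x => IrrOn_conj hψ0.1 hs x)
      (fun v hv hvr => hgood.reg ψ₁ h ψ0 hψ0 v hv hvr)
  have h4 := hQNW G M (cz P) θ u (hDL hu) w (hCK hwC) j hj1.sup hj4 (ev ψ0 j w) h3 ψ hψ.1
  intro h5
  apply h1
  rw [h2, h4, h5, mul_zero]

end Pool.Agent.FI3
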