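import Pool.Agent.helper1.FI3.SpecH

set_option autoImplicit false

namespace Pool.Agent.FI3

open Pool.Agent.helper58.DC Pool.Agent.DI Pool.Agent.GR Pool.Agent.OB Pool.Agent.DR Pool.Agent.FI

lemma QHG_cc_sum {G : Type} [Group G] [Finite G] (hCCI : CCI_stmt) {H : Subgroup G} {ψ : G → ℂ} (hψ : ψ ∈ IrrOn H)
    (s : Finset G) (f : G → G → ℂ) (c : ℂ) :
    cc ψ (fun y => (∑ t ∈ s, f t y) / c) = (∑ t ∈ s, cc ψ (f t)) / c := by
  classical
  obtain ⟨hl, _, _⟩ := hCCI G H ψ hψ
  have h1 : ∀ s : Finset G, cc ψ (∑ t ∈ s, f t) = ∑ t ∈ s, cc ψ (f t) := by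
    intro s
    induction s using Finset.induction_on with
    | empty =>
      rw [Finset.sum_empty, Finset.sum_empty]
      have := (hl 0 0 0).2.2.1
      simpa using this
    | insert a s ha ih => rw [Finset.sum_insert ha, Finset.sum_insert ha, (hl 0 (f a) (∑ t ∈ s, f t)).1, ih]
  have h2 : (fun y => (∑ t ∈ s, f t y) / c) = (c⁻¹) • (∑ t ∈ s, f t) := by
    funext y
    simp [Finset.sum_apply, div_eq_inv_mul]
  rw [h2, (hl c⁻¹ (∑ t ∈ s, f t) 0).2.2.1, h1, div_eq_inv_mul]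

lemma QHG_nz {G : Type} [Group G] [Finite G] {D : Subgroup G} {t : G} :
    (∀ s ∈ D, t⁻¹ * s * t ∈ D) ↔ t ∈ nz D := by
  constructor
  · intro h
    have h1 : cj t⁻¹ D ≤ D := by
      intro x hx
      rw [mem_cj, inv_inv] at hx
      have h2 := h _ hx
      have h3 : t⁻¹ * (t * x * t⁻¹) * t = x := by group
      rwa [h3] at h2
    have h2 : cj t⁻¹ D = D := Subgroup.eq_of_le_of_card_ge h1 (by rw [card_cj])
    have h3 := (nz D).inv_mem (cj_nz.1 h2)
    rwa [inv_inv] at h3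
  · intro h s hs
    have h1 := (Subgroup.mem_normalizer_iff.1 ((nz D).inv_mem h) s).1 hs
    rwa [inv_inv] at h1

theorem QHG (hFWB : FWB_stmt) (hQAV : QAV_stmt) (hFWV : FWV_stmt) (hCCI : CCI_stmt) (hIDM : IDM_stmt) : QHG_stmt := by
  classical
  intro p M hS G _ _ D K hD hcom hCK θ hθ w hw j hjK hjI hjinv hje
  have : Fintype G := Fintype.ofFinite G
  have hDC : D ≤ cz D := le_cz_of_com hcom
  have hDK : D ≤ K := hDC.trans hCK
  have hBsub : Bl M (cz D) θ ⊆ IrrOn (cz D) := fun ψ h => h.1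
  obtain ⟨heCF, hecc, _, _⟩ := hIDM G (cz D) (Bl M (cz D) θ) hBsub
  set e : G → ℂ := eBl M (cz D) θ with he
  have hwc : ∀ d ∈ D, d * w = w * d := by
    intro d hd
    have h1 := hw
    rw [Subgroup.mem_centralizer_iff] at h1
    exact h1 d hd
  -- FWB
  have hF := hFWB p M hS G K D hDK hD (fun y => j (y * w⁻¹)) (fun y => hjI _)
    (by
      intro y hy
      apply hjK
      intro h
      apply hy
      have h1 := K.mul_mem h (hCK hw)
      rwa [inv_mul_cancel_right] at h1)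
    (by
      intro r hr y
      change j (r * y * r⁻¹ * w⁻¹) = j (y * w⁻¹)
      have h1 : r * y * r⁻¹ * w⁻¹ = r * (y * w⁻¹) * r⁻¹ := by
        have h2 : r⁻¹ * w⁻¹ = w⁻¹ * r⁻¹ := by
          rw [← mul_inv_rev, ← mul_inv_rev, hwc r hr]
        calc r * y * r⁻¹ * w⁻¹ = r * y * (r⁻¹ * w⁻¹) := by group
          _ = r * y * (w⁻¹ * r⁻¹) := by rw [h2]
          _ = r * (y * w⁻¹) * r⁻¹ := by group
      rw [h1]
      exact hjinv r (hDC hr) _)
  obtain ⟨hqCF, hqI, hqS⟩ := hF
  refine ⟨hqCF, hqI, ?_⟩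
  set q : G → ℂ := trL K D (fun y => j (y * w⁻¹)) with hq
  set N : Subgroup G := K ⊓ nz D with hN
  have hDN : D ≤ N := le_inf hDK (hDC.trans (cz_le_nz D))
  have hczN : ∀ t ∈ nz D, ∀ y, t⁻¹ * y * t ∈ cz D ↔ y ∈ cz D := by
    intro t ht y
    have h1 : cj t (cz D) = cz D := by rw [← cj_cz, cj_nz.2 ht]
    rw [← mem_cj, h1]
  -- the approximation q'
  let f : G → G → ℂ := fun t y => e (t⁻¹ * y * t * w⁻¹)
  let q' : G → ℂ := fun y => (∑ t ∈ Finset.univ.filter (fun t => t ∈ N), f t y) / (Nat.card D : ℂ)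
  have hq'0 : ∀ y, y ∉ cz D → q' y = 0 := by
    intro y hy
    change (∑ t ∈ Finset.univ.filter (fun t => t ∈ N), f t y) / (Nat.card D : ℂ) = 0
    rw [Finset.sum_eq_zero, zero_div]
    intro t ht
    have htN : t ∈ N := (Finset.mem_filter.1 ht).2
    apply heCF.2
    intro h
    apply hy
    rw [← hczN t htN.2 y]
    have h1 := (cz D).mul_mem h hw
    rwa [inv_mul_cancel_right] at h1
  have hq'inv : ∀ h ∈ cz D, ∀ y, q' (h * y * h⁻¹) = q' y := by
    intro h hh y
    have hhN : h ∈ N := ⟨hCK hh, cz_le_nz D hh⟩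
    change (∑ t ∈ Finset.univ.filter (fun t => t ∈ N), f t (h * y * h⁻¹)) / (Nat.card D : ℂ) =
      (∑ t ∈ Finset.univ.filter (fun t => t ∈ N), f t y) / (Nat.card D : ℂ)
    congr 1
    refine Finset.sum_nbij' (fun t => h⁻¹ * t) (fun t => h * t) ?_ ?_ ?_ ?_ ?_
    · intro t ht
      rw [Finset.mem_filter] at ht ⊢
      exact ⟨Finset.mem_univ _, N.mul_mem (N.inv_mem hhN) ht.2⟩
    · intro t ht
      rw [Finset.mem_filter] at ht ⊢
      exact ⟨Finset.mem_univ _, N.mul_mem hhN ht.2⟩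
    · intro t _
      exact mul_inv_cancel_left h t
    · intro t _
      exact inv_mul_cancel_left h t
    · intro t _
      change e (t⁻¹ * (h * y * h⁻¹) * t * w⁻¹) = e ((h⁻¹ * t)⁻¹ * y * (h⁻¹ * t) * w⁻¹)
      congr 1
      group
  -- congruence on cz D
  have hcong : ∀ y ∈ cz D, InM M (q y - q' y) := by
    intro y hy
    have hyD : D ≤ Cz K y := by
      intro d hd
      rw [mem_Cz]
      refine ⟨hDK hd, ?_⟩
      rw [Subgroup.mem_centralizer_iff] at hy
      exact (hy d hd).symm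
    have h1 := hqS D hD y hyD
    have hset : {t : G | t ∈ K ∧ ∀ s ∈ D, t⁻¹ * s * t ∈ D} = (N : Set G) := by
      ext t
      change (t ∈ K ∧ ∀ s ∈ D, t⁻¹ * s * t ∈ D) ↔ t ∈ N
      rw [QHG_nz]
      exact Iff.rfl
    rw [hset] at h1
    have h2 := (hQAV p M hS G D N hDN (fun t => j (t⁻¹ * y * t * w⁻¹) - e (t⁻¹ * y * t * w⁻¹))
      (by
        intro t ht c hc
        have hz : t⁻¹ * y * t ∈ cz D := (hczN t ht.2 y).2 hy
        have h3 : (t * c)⁻¹ * y * (t * c) = t⁻¹ * y * t := by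
          rw [Subgroup.mem_centralizer_iff] at hz
          have h4 := hz c hc
          calc (t * c)⁻¹ * y * (t * c) = c⁻¹ * ((t⁻¹ * y * t) * c) := by group
            _ = c⁻¹ * (c * (t⁻¹ * y * t)) := by rw [h4]
            _ = t⁻¹ * y * t := by group
        change j ((t * c)⁻¹ * y * (t * c) * w⁻¹) - e ((t * c)⁻¹ * y * (t * c) * w⁻¹) = _
        rw [h3])).2.1
      (by
        intro t ht
        exact hje _ ((cz D).mul_mem ((hczN t ht.2 y).2 hy) ((cz D).inv_mem hw)))
    have hsum : ∀ F : G → ℂ, ∑ᶠ t ∈ (N : Set G), F t = ∑ t ∈ Finset.univ.filter (fun t => t ∈ N), F t := by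
      intro F
      have h3 : (N : Set G) = ((Finset.univ.filter (fun t => t ∈ N) : Finset G) : Set G) := by
        ext t
        rw [Finset.mem_coe, Finset.mem_filter]
        exact ⟨fun h => ⟨Finset.mem_univ _, h⟩, fun h => h.2⟩
      rw [h3]
      exact finsum_mem_coe_finset F _
    have h5 : q y - q' y = (q y - (∑ᶠ t ∈ (N : Set G), j (t⁻¹ * y * t * w⁻¹)) / (Nat.card D : ℂ)) +
        (∑ᶠ t ∈ (N : Set G), (j (t⁻¹ * y * t * w⁻¹) - e (t⁻¹ * y * t * w⁻¹))) / (Nat.card D : ℂ) := by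
      rw [hsum, hsum, Finset.sum_sub_distrib]
      change q y - (∑ t ∈ Finset.univ.filter (fun t => t ∈ N), e (t⁻¹ * y * t * w⁻¹)) / (Nat.card D : ℂ) = _
      ring
    rw [h5]
    exact h1.add hS h2
  -- pass to cc
  have hccq : InM M (cc θ q - cc θ q') := by
    have h1 := ((hCCI G (cz D) θ hθ).2.2 p M hS (fun y => if y ∈ cz D then q y - q' y else 0)
      (by
        intro h hh y
        have h2 : (h * y * h⁻¹ ∈ cz D) ↔ y ∈ cz D := by
          constructor
          · intro h3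
            have h4 := (cz D).mul_mem ((cz D).mul_mem ((cz D).inv_mem hh) h3) hh
            have h5 : h⁻¹ * (h * y * h⁻¹) * h = y := by group
            rwa [h5] at h4
          · intro h3
            exact (cz D).mul_mem ((cz D).mul_mem hh h3) ((cz D).inv_mem hh)
        change (if h * y * h⁻¹ ∈ cz D then q (h * y * h⁻¹) - q' (h * y * h⁻¹) else 0) = if y ∈ cz D then q y - q' y else 0
        rw [hqCF.1 h (hCK hh) y, hq'inv h hh y]
        simp only [h2])).2
      (by
        intro y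
        by_cases hy : y ∈ cz D
        · simp only [hy, if_true]; exact hcong y hy
        · simp only [hy, if_false]; exact InM.zero hS)
    have h2 : cc θ (fun y => if y ∈ cz D then q y - q' y else 0) = cc θ (q - q') :=
      cc_congr_on (H := cz D) (fun x hx => IrrOn_zero hθ hx) fun x hx => by simp [hx]
    rw [h2, ((hCCI G (cz D) θ hθ).1 0 q q').2.1] at h1
    exact h1
  -- the value of cc θ q'
  have hval : cc θ q' = (∑ᶠ t ∈ ((TT M D θ ⊓ K : Subgroup G) : Set G), θ (t * w * t⁻¹) / θ 1) / Nat.card D := by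
    have h1 : cc θ q' = (∑ t ∈ Finset.univ.filter (fun t => t ∈ N), cc θ (f t)) / (Nat.card D : ℂ) :=
      QHG_cc_sum hCCI hθ _ f _
    have h2 : ∀ t ∈ Finset.univ.filter (fun t => t ∈ N), cc θ (f t) =
        if t ∈ TT M D θ then θ (t * w * t⁻¹) / θ 1 else 0 := by
      intro t ht
      have htN : t ∈ N := (Finset.mem_filter.1 ht).2
      have hti : t⁻¹ ∈ nz D := (nz D).inv_mem htN.2
      have h3 : cc θ (f t) = cc (funMap (MulAut.conj t⁻¹) θ) (fun y => e (y * w⁻¹)) := by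
        rw [cc_funMap]
        congr 1
        funext x
        change e (t⁻¹ * x * t * w⁻¹) = e (t⁻¹ * x * t⁻¹⁻¹ * w⁻¹)
        rw [inv_inv]
      have h4 : funMap (MulAut.conj t⁻¹) θ ∈ IrrOn (cz D) := by
        have h5 := IrrOn_funMap hθ t⁻¹
        have h6 : cj t⁻¹ (cz D) = cz D := by rw [← cj_cz, cj_nz.2 hti]
        rwa [h6] at h5
      rw [h3, hFWV G (cz D) _ h4 e heCF w hw, hecc _ h4]
      by_cases hT : t ∈ TT M D θ
      · have hT' : t⁻¹ ∈ TT M D θ := (TT M D θ).inv_mem hT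
        have hB : funMap (MulAut.conj t⁻¹) θ ∈ Bl M (cz D) θ := ⟨h4, hT'.2⟩
        rw [if_pos hB, if_pos hT, one_mul]
        have h7 : ∀ x : G, funMap (MulAut.conj t⁻¹) θ x = θ (t * x * t⁻¹) := by
          intro x
          have h8 : (MulAut.conj t⁻¹)⁻¹ x = t * x * t⁻¹ := by
            rw [← map_inv, inv_inv, MulAut.conj_apply]
          change θ ((MulAut.conj t⁻¹)⁻¹ x) = θ (t * x * t⁻¹)
          rw [h8]
        rw [h7, h7, mul_one, mul_inv_cancel]
      · have hB : funMap (MulAut.conj t⁻¹) θ ∉ Bl M (cz D) θ := by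
          intro h
          apply hT
          have h5 : t⁻¹ ∈ TT M D θ := ⟨hti, h.2⟩
          have h6 := (TT M D θ).inv_mem h5
          rwa [inv_inv] at h6
        rw [if_neg hB, if_neg hT, zero_mul]
    have h3 : ((TT M D θ ⊓ K : Subgroup G) : Set G) =
        ((Finset.univ.filter (fun t => t ∈ N ∧ t ∈ TT M D θ) : Finset G) : Set G) := by
      ext t
      rw [Finset.mem_coe, Finset.mem_filter]
      constructor
      · rintro ⟨h4, h5⟩
        exact ⟨Finset.mem_univ _, ⟨h5, h4.1⟩, h4⟩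
      · rintro ⟨-, h4, h5⟩
        exact ⟨h5, h4.1⟩
    rw [h1, Finset.sum_congr rfl h2, ← Finset.sum_filter, Finset.filter_filter, h3]
    congr 1
    exact (finsum_mem_coe_finset _ _).symm
  rw [← hval]
  exact hccq

end Pool.Agent.FI3
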